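import Pool.Agent.helper66.LE.Ineq

/-!
# Lace expansion for percolation on a finite graph: definitions

`t2` is the two-point function, `Phi n` and `Rem n` are the terms and the remainders of the expansion of Hara and
Slade, `EE`, `KK`, `Dg` are the diagrams which bound them, `CM`, `cs`, `fh` are convolution matrices, characters and
Fourier coefficients on the torus.
-/

set_option autoImplicit false

open Finset Classical

namespace Pool.Agent.helper66.LE


section Perc

variable {V : Type}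

/-- the two-point function -/
noncomputable def t2 (q : ℝ) (E : Finset (Sym2 V)) (x y : V) : ℝ := Pr q E (fun F => Conn F x y)

/-- disjoint connections between the pairs of the list -/
def DC : List (V × V) → Finset (Sym2 V) → Prop
  | [] => fun _ => True
  | p :: l => Dis (fun F => Conn F p.1 p.2) (DC l)

variable [Fintype V]

/-- the terms of the expansion -/
noncomputable def Phi (q : ℝ) (E : Finset (Sym2 V)) : ℕ → Set V → V → V → ℝ
  | 0, A, v, x => Pr q E (fun F => Epr F A v x)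
  | n + 1, A, v, x => ∑ u, ∑ w, if s(u, w) ∈ E then q * Ex q E (fun F =>
      if Epr F A v u then Phi q E n (clus (F.erase s(u, w)) v) w x else 0) else 0

/-- the remainders of the expansion -/
noncomputable def Rem (q : ℝ) (E : Finset (Sym2 V)) : ℕ → Set V → V → V → ℝ
  | 0, A, v, x => Pr q E (fun F => Thr F A v x)
  | n + 1, A, v, x => ∑ u, ∑ w, if s(u, w) ∈ E then q * Ex q E (fun F =>
      if Epr F A v u then Rem q E n (clus (F.erase s(u, w)) v) w x else 0) else 0

/-- the sum of the lace expansion -/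
noncomputable def NN (q : ℝ) (E : Finset (Sym2 V)) (o x : V) : ℝ :=
  ∑' n : ℕ, (-1 : ℝ) ^ n * Phi q E n {o} o x

end Perc

section Diag

variable {V : Type} [Fintype V]

/-- last block -/
def EE (T : Matrix V V ℝ) (v a x : V) : ℝ := ∑ t, T v t * T t a * T a x * T t x

/-- blocks of the diagrams -/
def KK (T : Matrix V V ℝ) (v a u y : V) : ℝ := ∑ t, ∑ s,
  (T v s * T s t * T t a * T a u * T t u + T v t * (T t s * T s a) * T a u * T t u +
    T v t * T t a * (T a s * T s u) * T t u + T v t * T t a * T a u * (T t s * T s u)) * T s y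

/-- the diagrams -/
def Dg (T Q : Matrix V V ℝ) : ℕ → V → V → V → ℝ
  | 0, v, a, x => EE T v a x
  | n + 1, v, a, x => ∑ u, ∑ w, ∑ y, KK T v a u y * Q u w * Dg T Q n w y x

/-- hypotheses for the estimates of the diagrams -/
structure Hyp [DecidableEq V] (T Q : Matrix V V ℝ) (ρ : V → V → ℝ) (B δ W : ℝ) : Prop where
  T0 : ∀ x y, 0 ≤ T x y
  Ts : ∀ x y, T x y = T y x
  T1 : ∀ x, T x x = 1
  Tle : ∀ x y, T x y ≤ 1
  Q0 : ∀ x y, 0 ≤ Q x y
  Qs : ∀ x y, Q x y = Q y x
  QT : ∀ x y, Q x y ≤ T x y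
  comm : T * Q = Q * T
  step : ∀ x y, x ≠ y → T x y ≤ (Q * T) x y
  B1 : 1 ≤ B
  hB : ∀ x y, (T ^ 8) x y ≤ B
  δ0 : 0 ≤ δ
  hδ : ∀ x y, (T ^ 5 * Q) x y ≤ δ
  ρ0 : ∀ x y, 0 ≤ ρ x y
  ρs : ∀ x y, ρ x y = ρ y x
  ρt : ∀ x y z, ρ x z ≤ ρ x y + ρ y z
  ρx : ∀ x, ρ x x = 0
  ρQ : ∀ x y, Q x y ≠ 0 → ρ x y ≤ 1
  W0 : 0 ≤ W
  hW : ∑ x, ∑ y, ρ x y ^ 2 * ((T ^ 8) x y) ^ 2 ≤ Fintype.card V * W

/-- left functions -/
structure LF [DecidableEq V] (T : Matrix V V ℝ) (M : V → V → ℝ) (c β : ℝ) : Prop where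
  M0 : ∀ v a, 0 ≤ M v a
  Mβ : ∀ a x, ∑ v, M v a * T v x ≤ β
  Mc : ∀ v a, M v a ≤ c * (T ^ 4) v a

end Diag

section Torus

/-- convolution matrix -/
def CM {G : Type} [AddCommGroup G] (f : G → ℝ) : Matrix G G ℝ := Matrix.of fun x y => f (y - x)

variable {d L : ℕ} [NeZero L]

/-- the characters of the torus -/
noncomputable def ee (k x : Tor d L) : ℂ := ZMod.stdAddChar (∑ j, k j * x j)

/-- real part of the characters -/
noncomputable def cs (k x : Tor d L) : ℝ := (ee k x).re

/-- Fourier coefficients of an even real function -/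
noncomputable def fh (f : Tor d L → ℝ) (k : Tor d L) : ℝ := ∑ x, f x * cs k x

/-- Fourier transform of the step distribution of the random walk: `(1 / d) ∑ cos (2 π k_j / L)` -/
noncomputable def Dh (k : Tor d L) : ℝ := (∑ j, (ZMod.stdAddChar (k j) : ℂ).re) / d

/-- the bond function `q J` -/
noncomputable def qJ (d L : ℕ) (q : ℝ) (x : Tor d L) : ℝ := q * J (uv d (ZMod L)) x

/-- reflection of the `j`-th coordinate -/
def flp (j : Fin d) (x : Tor d L) : Tor d L := Function.update x j (-x j)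

/-- invariance under reflections and permutations of the coordinates -/
def SymF (f : Tor d L → ℝ) : Prop :=
  (∀ j x, f (flp j x) = f x) ∧ ∀ (σ : Equiv.Perm (Fin d)) x, f (x ∘ σ) = f x

/-- second moment -/
noncomputable def mom (f : Tor d L → ℝ) : ℝ := ∑ x, ∑ j, ab j x ^ 2 * |f x|

/-- the closed weighted loop -/
noncomputable def WW (d L : ℕ) [NeZero L] (q : ℝ) : ℝ :=
  ∑ y : Tor d L, ∑ j, ab j y ^ 2 * ((CM (tt d L q) ^ 8) 0 y) ^ 2

/-- the hypothesis of the bootstrap -/
def Good (d L : ℕ) [NeZero L] (q K : ℝ) : Prop :=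
  2 * d * q ≤ 3 ∧ (∀ k : Tor d L, fh (tt d L q) k * (1 - Dh k) ≤ 6) ∧ d * WW d L q ≤ K

end Torus

end Pool.Agent.helper66.LE
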