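import Pool.Agent.helper64.LE.FQ
import Pool.Agent.helper33.LE.FO

/-!
# The return probability after two steps
-/

set_option autoImplicit false

open Finset Classical

namespace Pool.Agent.helper66.LE

section FE

variable {d L : ℕ} [NeZero L] {q : ℝ}

theorem FE_ee_add (k x y : Tor d L) : ee k (x + y) = ee k x * ee k y := by
  unfold ee
  rw [← AddChar.map_add_eq_mul]
  congr 1
  rw [← Finset.sum_add_distrib]
  refine Finset.sum_congr rfl fun j _ => ?_
  rw [Pi.add_apply]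
  ring

theorem FE_ee_neg (k x : Tor d L) : ee k (-x) = (starRingEnd ℂ) (ee k x) := by
  unfold ee
  rw [← AddChar.map_neg_eq_conj]
  congr 1
  rw [← Finset.sum_neg_distrib]
  refine Finset.sum_congr rfl fun j _ => ?_
  rw [Pi.neg_apply]
  ring

theorem FE_mul (k x y : Tor d L) : cs k x * cs k y = (cs k (x + y) + cs k (x - y)) / 2 := by
  unfold cs
  rw [sub_eq_add_neg, FE_ee_add, FE_ee_add, FE_ee_neg]
  simp only [Complex.mul_re, Complex.conj_re, Complex.conj_im]
  ring

omit [NeZero L] in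
theorem FE_count (s : Tor d L) (c : ℝ) (hc : 0 ≤ c) :
    (∑ s' ∈ uv d (ZMod L), if s + s' = 0 then c else 0) ≤ c ∧
    (∑ s' ∈ uv d (ZMod L), if s - s' = 0 then c else 0) ≤ c := by
  have key : ∀ a : Tor d L, (∑ s' ∈ uv d (ZMod L), if s' = a then c else 0) ≤ c := by
    intro a
    rw [Finset.sum_ite_eq']
    split_ifs
    · exact le_refl c
    · exact hc
  constructor
  · refine le_trans (le_of_eq ?_) (key (-s))
    refine Finset.sum_congr rfl fun s' _ => ?_
    refine if_congr ?_ rfl rfl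
    constructor
    · intro h; exact eq_neg_of_add_eq_zero_right h
    · intro h; rw [h]; simp
  · refine le_trans (le_of_eq ?_) (key s)
    refine Finset.sum_congr rfl fun s' _ => ?_
    refine if_congr ?_ rfl rfl
    rw [sub_eq_zero]
    exact eq_comm

/-- FE (from FO) -/
theorem sum_Dh_sq (hL : 3 ≤ L) (hd : 1 ≤ d) :
    ∑ k : Tor d L, Dh k ^ 2 ≤ (L : ℝ) ^ d / (2 * d) := by
  have hd0 : (0 : ℝ) < d := by exact_mod_cast hd
  have hV : (0 : ℝ) ≤ (L : ℝ) ^ d := by positivity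
  have h1 : (2 * (d : ℝ)) ^ 2 * ∑ k : Tor d L, Dh k ^ 2 =
      ∑ s ∈ uv d (ZMod L), ∑ s' ∈ uv d (ZMod L),
        ((∑ k : Tor d L, cs k (s + s')) + ∑ k : Tor d L, cs k (s - s')) / 2 := by
    have h2 : ∀ k : Tor d L, (2 * (d : ℝ)) ^ 2 * Dh k ^ 2 =
        ∑ s ∈ uv d (ZMod L), ∑ s' ∈ uv d (ZMod L), (cs k (s + s') + cs k (s - s')) / 2 := by
      intro k
      rw [← mul_pow, ← FQ_sum_cs hL hd k, pow_two, Finset.sum_mul_sum]
      exact Finset.sum_congr rfl fun s _ => Finset.sum_congr rfl fun s' _ => FE_mul k s s'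
    rw [Finset.mul_sum, Finset.sum_congr rfl fun k _ => h2 k, Finset.sum_comm]
    refine Finset.sum_congr rfl fun s _ => ?_
    rw [Finset.sum_comm]
    refine Finset.sum_congr rfl fun s' _ => ?_
    rw [← Finset.sum_div, Finset.sum_add_distrib]
  have h3 : (2 * (d : ℝ)) ^ 2 * ∑ k : Tor d L, Dh k ^ 2 ≤ 2 * d * (L : ℝ) ^ d := by
    rw [h1]
    have h4 : ∀ s ∈ uv d (ZMod L), ∑ s' ∈ uv d (ZMod L),
        ((∑ k : Tor d L, cs k (s + s')) + ∑ k : Tor d L, cs k (s - s')) / 2 ≤ (L : ℝ) ^ d := by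
      intro s _
      simp only [sum_cs]
      rw [← Finset.sum_div, Finset.sum_add_distrib]
      have h5 := FE_count (d := d) (L := L) s ((L : ℝ) ^ d) hV
      linarith [h5.1, h5.2]
    refine (Finset.sum_le_sum h4).trans ?_
    rw [Finset.sum_const, nsmul_eq_mul, FQ_card_uv hL]
  rw [le_div_iff₀ (by positivity)]
  have h6 : (2 * (d : ℝ)) ^ 2 * ∑ k : Tor d L, Dh k ^ 2 =
      2 * d * ((∑ k : Tor d L, Dh k ^ 2) * (2 * d)) := by ring
  rw [h6] at h3
  exact le_of_mul_le_mul_left h3 (by positivity)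

end FE

end Pool.Agent.helper66.LE
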