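import Pool.Agent.helper64.LE.Base

/-!
# The Fourier transform of the step distribution
-/

set_option autoImplicit false

open Finset Classical

namespace Pool.Agent.helper66.LE

theorem FQ_mem_gen {d : ℕ} {R : Type} [Ring R] (x : Fin d → R) : x ∈ uv d R ↔
    ∃ p : Fin d × Bool, (Pi.single p.1 (if p.2 then (1 : R) else -1) : Fin d → R) = x := by
  unfold uv
  rw [Finset.mem_image]
  simp only [Finset.mem_univ, true_and]

section FQ

variable {d L : ℕ} [NeZero L] {q : ℝ}

omit [NeZero L] in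
theorem FQ_one_ne (hL : 3 ≤ L) : (1 : ZMod L) ≠ -1 := by
  intro h
  have h1 : ((2 : ℕ) : ZMod L) = 0 := by
    have : (1 : ZMod L) + 1 = 0 := by
      nth_rw 2 [h]
      ring
    push_cast
    rw [← this]
    norm_num
  rw [ZMod.natCast_eq_zero_iff] at h1
  have := Nat.le_of_dvd (by norm_num) h1
  omega

omit [NeZero L] in
theorem FQ_one_ne_zero (hL : 2 ≤ L) : (1 : ZMod L) ≠ 0 := by
  intro h
  have h1 : ((1 : ℕ) : ZMod L) = 0 := by push_cast; exact h
  rw [ZMod.natCast_eq_zero_iff] at h1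
  have := Nat.le_of_dvd (by norm_num) h1
  omega

omit [NeZero L] in
theorem FQ_inj (hL : 3 ≤ L) : Function.Injective
    (fun p : Fin d × Bool => (Pi.single p.1 (if p.2 then (1 : ZMod L) else -1) : Tor d L)) := by
  rintro ⟨i, a⟩ ⟨j, b⟩ h
  simp only at h
  have hne : ∀ c : Bool, (if c then (1 : ZMod L) else -1) ≠ 0 := by
    intro c
    cases c
    · simp only [Bool.false_eq_true, if_false]
      exact neg_ne_zero.2 (FQ_one_ne_zero (by omega))
    · simp only [if_true]
      exact FQ_one_ne_zero (by omega)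
  have hij : i = j := by
    by_contra hij
    have h1 := congrFun h i
    rw [Pi.single_eq_same, Pi.single_eq_of_ne hij] at h1
    exact hne a h1
  subst hij
  have h1 := congrFun h i
  rw [Pi.single_eq_same, Pi.single_eq_same] at h1
  have hab : a = b := by
    cases a <;> cases b
    · rfl
    · simp only [Bool.false_eq_true, if_false, if_true] at h1
      exact absurd h1.symm (FQ_one_ne hL)
    · simp only [Bool.false_eq_true, if_false, if_true] at h1
      exact absurd h1 (FQ_one_ne hL)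
    · rfl
  rw [hab]

omit [NeZero L] in
theorem FQ_mem (x : Tor d L) : x ∈ uv d (ZMod L) ↔
    ∃ p : Fin d × Bool, (Pi.single p.1 (if p.2 then (1 : ZMod L) else -1) : Tor d L) = x := FQ_mem_gen x

omit [NeZero L] in
theorem FQ_sum_uv (hL : 3 ≤ L) (g : Tor d L → ℝ) :
    ∑ x ∈ uv d (ZMod L), g x = ∑ j : Fin d, (g (Pi.single j 1) + g (Pi.single j (-1))) := by
  have h1 : ∑ p : Fin d × Bool, g (Pi.single p.1 (if p.2 then (1 : ZMod L) else -1)) =
      ∑ x ∈ uv d (ZMod L), g x := by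
    refine Finset.sum_nbij
      (fun p : Fin d × Bool => (Pi.single p.1 (if p.2 then (1 : ZMod L) else -1) : Tor d L))
      (fun p _ => (FQ_mem _).2 ⟨p, rfl⟩) (fun p _ p' _ h => FQ_inj hL h) ?_ (fun p _ => rfl)
    intro x hx
    obtain ⟨p, hp⟩ := (FQ_mem x).1 hx
    exact ⟨p, Finset.mem_coe.2 (Finset.mem_univ _), hp⟩
  rw [← h1, Fintype.sum_prod_type]
  refine Finset.sum_congr rfl fun j _ => ?_
  rw [Fintype.sum_bool]
  simp

omit [NeZero L] in
theorem FQ_card_uv (hL : 3 ≤ L) : ((uv d (ZMod L)).card : ℝ) = 2 * d := by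
  have h := FQ_sum_uv (d := d) hL (fun _ => 1)
  rw [Finset.sum_const, nsmul_eq_mul, mul_one] at h
  rw [h]
  simp only [Finset.sum_const, Finset.card_univ, Fintype.card_fin, nsmul_eq_mul]
  ring

theorem FQ_cs_single (k : Tor d L) (j : Fin d) (a : ZMod L) :
    cs k (Pi.single j a) = (ZMod.stdAddChar (k j * a) : ℂ).re := by
  unfold cs ee
  congr 2
  rw [Finset.sum_eq_single j]
  · rw [Pi.single_eq_same]
  · intro i _ hi
    rw [Pi.single_eq_of_ne hi, mul_zero]
  · intro h; exact absurd (Finset.mem_univ _) h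

theorem FQ_re_neg (a : ZMod L) : (ZMod.stdAddChar (-a) : ℂ).re = (ZMod.stdAddChar a : ℂ).re := by
  rw [AddChar.map_neg_eq_conj]
  simp

theorem FQ_sum_cs (hL : 3 ≤ L) (hd : 1 ≤ d) (k : Tor d L) :
    ∑ x ∈ uv d (ZMod L), cs k x = 2 * d * Dh k := by
  have hd0 : (d : ℝ) ≠ 0 := by
    have : 0 < d := hd
    exact_mod_cast this.ne'
  rw [FQ_sum_uv hL]
  have h1 : ∀ j : Fin d, cs k (Pi.single j 1) + cs k (Pi.single j (-1)) =
      2 * (ZMod.stdAddChar (k j) : ℂ).re := by
    intro j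
    rw [FQ_cs_single, FQ_cs_single, mul_one, mul_neg, mul_one, FQ_re_neg]
    ring
  simp only [h1]
  rw [← Finset.mul_sum]
  unfold Dh
  field_simp

/-- FQ -/
theorem fh_qJ (hL : 3 ≤ L) (hd : 1 ≤ d) (k : Tor d L) :
    fh (qJ d L q) k = 2 * d * q * Dh k := by
  have h1 : ∀ x : Tor d L, x ∈ uv d (ZMod L) → qJ d L q x * cs k x = q * cs k x := by
    intro x hx
    unfold qJ J
    rw [if_pos hx, mul_one]
  have h2 : ∀ x : Tor d L, x ∉ uv d (ZMod L) → qJ d L q x * cs k x = 0 := by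
    intro x hx
    unfold qJ J
    rw [if_neg hx]
    ring
  unfold fh
  rw [← Finset.sum_subset (Finset.subset_univ (uv d (ZMod L))) (fun x _ hx => h2 x hx),
    Finset.sum_congr rfl h1, ← Finset.mul_sum, FQ_sum_cs hL hd]
  ring

theorem FQ_norm (a : ZMod L) : ‖(ZMod.stdAddChar a : ℂ)‖ = 1 :=
  (ZMod.stdAddChar (N := L)).norm_apply a

/-- FQ -/
theorem Dh_facts (hd : 1 ≤ d) (k : Tor d L) :
    Dh (0 : Tor d L) = 1 ∧ |Dh k| ≤ 1 ∧ (k ≠ 0 → Dh k < 1) := by
  have hd0 : (0 : ℝ) < d := by exact_mod_cast hd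
  have hre : ∀ a : ZMod L, |(ZMod.stdAddChar a : ℂ).re| ≤ 1 := by
    intro a
    have h5 := Complex.abs_re_le_norm (ZMod.stdAddChar a : ℂ)
    rwa [FQ_norm] at h5
  refine ⟨?_, ?_, ?_⟩
  · unfold Dh
    simp only [Pi.zero_apply, AddChar.map_zero_eq_one, Complex.one_re, Finset.sum_const,
      Finset.card_univ, Fintype.card_fin, nsmul_eq_mul, mul_one]
    exact div_self hd0.ne'
  · unfold Dh
    rw [abs_div, abs_of_pos hd0, div_le_one hd0]
    calc |∑ j, (ZMod.stdAddChar (k j) : ℂ).re| ≤ ∑ j, |(ZMod.stdAddChar (k j) : ℂ).re| :=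
          Finset.abs_sum_le_sum_abs _ _
      _ ≤ ∑ _j : Fin d, (1 : ℝ) := Finset.sum_le_sum fun j _ => hre _
      _ = d := by simp
  · intro hk
    have hex : ∃ j, k j ≠ 0 := by
      by_contra hcon
      push Not at hcon
      exact hk (funext hcon)
    obtain ⟨j, hj⟩ := hex
    unfold Dh
    rw [div_lt_one hd0]
    have hlt : (ZMod.stdAddChar (k j) : ℂ).re < 1 := by
      refine lt_of_le_of_ne (abs_le.1 (hre (k j))).2 ?_
      intro h1
      have h2 : (ZMod.stdAddChar (k j) : ℂ) = 1 := by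
        have h3 := FQ_norm (k j)
        have h4 := Complex.sq_norm (ZMod.stdAddChar (k j) : ℂ)
        rw [h3, Complex.normSq_apply, h1] at h4
        have h5 : (ZMod.stdAddChar (k j) : ℂ).im = 0 := by nlinarith
        exact Complex.ext h1 h5
      have h6 : k j = 0 := by
        apply ZMod.injective_stdAddChar (N := L)
        rw [h2, AddChar.map_zero_eq_one]
      exact hj h6
    calc ∑ j, (ZMod.stdAddChar (k j) : ℂ).re < ∑ _j : Fin d, (1 : ℝ) :=
          Finset.sum_lt_sum (fun j _ => (abs_le.1 (hre _)).2) ⟨j, Finset.mem_univ _, hlt⟩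
      _ = d := by simp

end FQ

end Pool.Agent.helper66.LE
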