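import Pool.Agent.helper64.LE.Base

/-!
# Continuity in the parameter, and the parameter zero
-/

set_option autoImplicit false

open Finset Classical

namespace Pool.Agent.helper66.LE

section BC

theorem BC_continuous_tt (d L : ℕ) [NeZero L] (x : Tor d L) : Continuous fun q : ℝ => tt d L q x :=
  continuous_Pr _ _

/-- BC: continuity in `q` -/
theorem continuous_fh {d L : ℕ} [NeZero L] (k : Tor d L) :
    Continuous fun q : ℝ => fh (tt d L q) k := by
  unfold fh
  exact continuous_finsetSum _ fun x _ => (BC_continuous_tt d L x).mul continuous_const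

theorem BC_continuous_pow (d L : ℕ) [NeZero L] (m : ℕ) :
    ∀ x y : Tor d L, Continuous fun q : ℝ => (CM (tt d L q) ^ m) x y := by
  induction m with
  | zero =>
    intro x y
    simp only [pow_zero]
    exact continuous_const
  | succ m ih =>
    intro x y
    simp only [pow_succ, Matrix.mul_apply]
    exact continuous_finsetSum _ fun z _ => (ih x z).mul (BC_continuous_tt d L (y - z))

/-- BC (from FB) -/
theorem continuous_WW (d L : ℕ) [NeZero L] : Continuous fun q : ℝ => WW d L q := by
  unfold WW
  exact continuous_finsetSum _ fun y _ => continuous_finsetSum _ fun j _ =>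
    continuous_const.mul ((BC_continuous_pow d L 8 0 y).pow 2)

theorem BC_wt_zero {ι : Type*} (E F : Finset ι) (hF : F ⊆ E) (hne : F.Nonempty) :
    wt (0 : ℝ) E F = 0 := by
  obtain ⟨e, he⟩ := hne
  unfold wt
  exact Finset.prod_eq_zero (hF he) (if_pos he)

theorem BC_Pr_zero {ι : Type*} (E : Finset ι) (A : Finset ι → Prop) (hA : ¬ A ∅) :
    Pr (0 : ℝ) E A = 0 := by
  unfold Pr Ex
  refine Finset.sum_eq_zero fun F hF => ?_
  rcases F.eq_empty_or_nonempty with h | h
  · subst h
    simp only [if_neg hA, mul_zero]
  · rw [BC_wt_zero E F (Finset.mem_powerset.1 hF) h, zero_mul]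

theorem BC_tt_zero (d L : ℕ) [NeZero L] (x : Tor d L) :
    tt d L 0 x = if x = 0 then 1 else 0 := by
  by_cases hx : x = 0
  · rw [if_pos hx, hx]
    exact Pr_true _ _ fun F _ => conn_refl F 0
  · rw [if_neg hx]
    refine BC_Pr_zero _ _ ?_
    intro h
    have : x ∈ ({0} : Set (Tor d L)) := by
      refine h.mem_of_closed (S := {0}) ?_ rfl
      intro u w huw
      simp at huw
    exact hx this

/-- BC -/
theorem good_zero (d L : ℕ) [NeZero L] (hd : 1 ≤ d) (K : ℝ) (hK : 0 ≤ K) : Good d L 0 K := by
  have hd0 : (0 : ℝ) < d := by exact_mod_cast hd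
  refine ⟨by simp, ?_, ?_⟩
  · intro k
    have h1 : fh (tt d L 0) k = cs k 0 := by
      unfold fh
      rw [Finset.sum_eq_single (0 : Tor d L)]
      · rw [BC_tt_zero, if_pos rfl, one_mul]
      · intro x _ hx
        rw [BC_tt_zero, if_neg hx, zero_mul]
      · intro h; exact absurd (Finset.mem_univ _) h
    have h2 : cs k (0 : Tor d L) = 1 := by
      unfold cs ee
      simp
    rw [h1, h2, one_mul]
    have h3 : -1 ≤ Dh k := by
      unfold Dh
      rw [le_div_iff₀ hd0]
      have h4 : ∀ j : Fin d, (-1 : ℝ) ≤ (ZMod.stdAddChar (k j) : ℂ).re := by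
        intro j
        have h5 := Complex.abs_re_le_norm (ZMod.stdAddChar (k j) : ℂ)
        have h6 : ‖(ZMod.stdAddChar (k j) : ℂ)‖ = 1 := by
          exact (ZMod.stdAddChar (N := L)).norm_apply (k j)
        rw [h6] at h5
        exact (abs_le.1 h5).1
      calc -1 * (d : ℝ) = ∑ _j : Fin d, (-1 : ℝ) := by simp
        _ ≤ ∑ j, (ZMod.stdAddChar (k j) : ℂ).re := Finset.sum_le_sum fun j _ => h4 j
    linarith
  · have h1 : CM (tt d L 0) = 1 := by
      ext x y
      simp only [CM, Matrix.of_apply, BC_tt_zero, Matrix.one_apply]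
      refine ite_congr ?_ (fun _ => rfl) fun _ => rfl
      rw [sub_eq_zero]
      exact propext eq_comm
    have h2 : WW d L 0 = 0 := by
      unfold WW
      refine Finset.sum_eq_zero fun y _ => Finset.sum_eq_zero fun j _ => ?_
      rw [h1, one_pow, Matrix.one_apply]
      by_cases hy : (0 : Tor d L) = y
      · subst hy
        have : ab j (0 : Tor d L) = 0 := by
          unfold ab
          simp
        rw [this]
        ring
      · rw [if_neg hy]
        ring
    rw [h2, mul_zero]
    exact hK

end BC

end Pool.Agent.helper66.LE
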