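import Pool.Agent.helper20.LE.DP
import Pool.Agent.helper65.LE.TC
import Pool.Agent.helper65.LE.FG
import Pool.Agent.helper65.LE.FW
import Pool.Agent.helper92.LE.FH
import Pool.Agent.helper47.LE.FM

/-!
# The improvement of the bootstrap bounds
-/

set_option autoImplicit false

open Finset Classical

namespace Pool.Agent.helper66.LE

/-- BI (from FM, TC, FH, FW): improvement -/
theorem improve : ∃ K : ℝ, 0 < K ∧ ∃ d₀ : ℕ, 72 ≤ d₀ ∧ ∀ d ≥ d₀, ∀ X : ℝ, ∃ L₀ : ℕ, 3 ≤ L₀ ∧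
    ∀ L ≥ L₀, ∀ [NeZero L], ∀ q : ℝ, 0 ≤ q → q ≤ 1 → chi d L q ≤ X → Good d L q K →
    (2 * d * q ≤ 2 ∧ (∀ k : Tor d L, fh (tt d L q) k * (1 - Dh k) ≤ 5) ∧
      d * WW d L q ≤ K / 2) ∧
    (∀ x, (CM (tt d L q) ^ 3 * CM (qJ d L q)) 0 x ≤ 1 / 100) ∧
    ∀ k : Tor d L, chi d L q - fh (tt d L q) k ≤ 2 * chi d L q ^ 2 * (1 - Dh k) := by
  obtain ⟨B₀, hB1, hm⟩ := moments
  have hB0 : 0 < B₀ := by linarith
  have hB5 : 1 ≤ B₀ ^ 5 := one_le_pow₀ hB1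
  set S : ℝ := 10 ^ 9 * B₀ ^ 5 with hS
  have hS1 : 1 ≤ S := by rw [hS]; linarith
  refine ⟨2560 * B₀, by positivity, max 72 ⌈S ^ 2⌉₊, le_max_left _ _, ?_⟩
  intro d hd X
  have hd72 : 72 ≤ d := (le_max_left _ _).trans hd
  have hdS : S ^ 2 ≤ d := by
    have h1 : ⌈S ^ 2⌉₊ ≤ d := (le_max_right _ _).trans hd
    exact (Nat.le_ceil _).trans (by exact_mod_cast h1)
  have hd0 : (0 : ℝ) < d := by
    have : (72 : ℝ) ≤ d := by exact_mod_cast hd72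
    linarith
  have hsq : S ≤ √d := Real.le_sqrt_of_sq_le hdS
  have hsq0 : 0 < √(d : ℝ) := by linarith
  have hSd : S ≤ d := by nlinarith
  set δ : ℝ := B₀ / √d with hδ
  have hδ0 : 0 ≤ δ := by positivity
  have hδS : δ ≤ B₀ / S := div_le_div_of_nonneg_left hB0.le (by linarith) hsq
  have hS' : S = 10 ^ 9 * B₀ ^ 5 := hS
  have hδ5 : δ * B₀ ^ 4 ≤ 1 / 10 ^ 9 := by
    have h1 : B₀ / S * B₀ ^ 4 = 1 / 10 ^ 9 := by
      rw [hS']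
      field_simp
    rw [← h1]
    exact mul_le_mul_of_nonneg_right hδS (by positivity)
  have hKd : 2560 * B₀ / d ≤ 2560 * B₀ / S := div_le_div_of_nonneg_left (by positivity) (by linarith) hSd
  have hKd5 : 2560 * B₀ / d * B₀ ^ 4 ≤ 2560 / 10 ^ 9 := by
    have h1 : 2560 * B₀ / S * B₀ ^ 4 = 2560 / 10 ^ 9 := by
      rw [hS']
      field_simp
    rw [← h1]
    exact mul_le_mul_of_nonneg_right hKd (by positivity)
  have hp : ∀ n : ℕ, n ≤ 4 → B₀ ^ n ≤ B₀ ^ 4 := fun n hn => pow_le_pow_right₀ hB1 hn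
  obtain ⟨L₀, hL₀, hmom⟩ := hm d hd72 X
  refine ⟨L₀, hL₀, ?_⟩
  intro L hL _ q h0 h1 hX hG
  have hL3 : 3 ≤ L := hL₀.trans hL
  obtain ⟨g1, g2, g3⟩ := hG
  obtain ⟨m1, m2, m3⟩ := hmom L hL q h0 h1 hX g1 g2
  have hWW : WW d L q ≤ 2560 * B₀ / d := by
    rw [le_div_iff₀ hd0]
    linarith
  have hKd0 : 0 ≤ 2560 * B₀ / d := by positivity
  have hone : (1 : ℝ) ≤ B₀ ^ 4 := one_le_pow₀ hB1
  have hKd1 : 2560 * B₀ / d ≤ 2560 / 10 ^ 9 := by nlinarith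
  have hδ1 : δ ≤ 1 / 10 ^ 9 := by nlinarith
  have hW1 : WW d L q ≤ 1 := by linarith
  have hBδ : B₀ * δ ≤ 1 / 10 ^ 9 := by
    have := mul_le_mul_of_nonneg_right (hp 1 (by norm_num)) hδ0
    rw [pow_one] at this
    linarith
  have hB3δ : B₀ ^ 3 * δ ≤ 1 / 10 ^ 9 := by
    have := mul_le_mul_of_nonneg_right (hp 3 (by norm_num)) hδ0
    linarith
  have hκ : 4 * B₀ * δ ≤ 1 / 8 := by nlinarith
  obtain ⟨N, n1, n2, n3⟩ := lace_torus hL3 h0 h1 hB1 hδ0 m2 m3 hκ hW1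
  have n2' : ∑ x, |N x - (if x = 0 then 1 else 0)| ≤ 1 / 100 := by
    refine n2.trans ?_
    nlinarith
  have n3' : mom N ≤ 1 / 100 := by
    refine n3.trans ?_
    have e1 : B₀ ^ 3 * WW d L q ≤ 2560 / 10 ^ 9 := by
      have a1 : B₀ ^ 3 * WW d L q ≤ B₀ ^ 3 * (2560 * B₀ / d) :=
        mul_le_mul_of_nonneg_left hWW (by positivity)
      have a2 := mul_le_mul_of_nonneg_right (hp 3 (by norm_num)) hKd0
      linarith
    have e2 : B₀ ^ 3 * (4 * B₀ * δ) ≤ 4 / 10 ^ 9 := by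
      have : B₀ ^ 3 * (4 * B₀ * δ) = 4 * (δ * B₀ ^ 4) := by ring
      rw [this]
      linarith
    have e3 : 2000 * B₀ ^ 3 * (WW d L q + 4 * B₀ * δ) =
      2000 * (B₀ ^ 3 * WW d L q + B₀ ^ 3 * (4 * B₀ * δ)) := by ring
    rw [e3]
    norm_num at e1 e2 ⊢
    linarith
  obtain ⟨r1, r2, r3, r4⟩ := improve_algebra hL3 (by omega) h0 h1 N n1 n2' n3'
  have hw := WW_le (by omega : 1 ≤ d) h0 h1 r3
  refine ⟨⟨r1, r2, ?_⟩, ?_, r4⟩
  · linarith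
  · intro x
    have hH := torus_hyp hL3 h0 h1 hB1 hδ0 m2 m3
    have := (hH.TQ_le (m := 3) (by norm_num) 0 x).2.1
    linarith

end Pool.Agent.helper66.LE
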