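import Pool.Agent.helper64.LE.BI
import Pool.Agent.helper64.LE.BC

/-!
# The bootstrap
-/

set_option autoImplicit false

open Finset Classical

namespace Pool.Agent.helper66.LE

theorem BM_chi_mono (d L : ℕ) [NeZero L] {s q : ℝ} (h0 : 0 ≤ s) (h : s ≤ q) (h1 : q ≤ 1) :
    chi d L s ≤ chi d L q :=
  Finset.sum_le_sum fun x _ => Pr_mono_q _ (inc_conn (V := Tor d L) 0 x) h0 h h1

theorem BM_closed (d L : ℕ) [NeZero L] (K : ℝ) : IsClosed {s : ℝ | Good d L s K} := by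
  have h : {s : ℝ | Good d L s K} = {s : ℝ | 2 * (d : ℝ) * s ≤ 3} ∩
      ((⋂ k : Tor d L, {s : ℝ | fh (tt d L s) k * (1 - Dh k) ≤ 6}) ∩
        {s : ℝ | (d : ℝ) * WW d L s ≤ K}) := by
    ext s
    simp only [Good, Set.mem_ofPred_eq, Set.mem_inter_iff, Set.mem_iInter]
  rw [h]
  refine IsClosed.inter ?_ (IsClosed.inter ?_ ?_)
  · exact isClosed_le (by fun_prop) continuous_const
  · exact isClosed_iInter fun k => isClosed_le ((continuous_fh k).mul continuous_const)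
      continuous_const
  · exact isClosed_le (continuous_const.mul (continuous_WW d L)) continuous_const

/-- Good is an open condition at points where the improved bounds hold -/
theorem BM_open (d L : ℕ) [NeZero L] (K : ℝ) (hK : 0 < K) (s : ℝ) (h1 : 2 * (d : ℝ) * s ≤ 2)
    (h2 : ∀ k : Tor d L, fh (tt d L s) k * (1 - Dh k) ≤ 5) (h3 : d * WW d L s ≤ K / 2) :
    ∀ᶠ r in nhds s, Good d L r K := by
  have e1 : ∀ᶠ r in nhds s, 2 * (d : ℝ) * r < 3 :=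
    (show Continuous fun r : ℝ => 2 * (d : ℝ) * r by fun_prop).continuousAt.eventually_lt
      continuousAt_const (by linarith)
  have e2 : ∀ᶠ r in nhds s, ∀ k : Tor d L, fh (tt d L r) k * (1 - Dh k) < 6 := by
    rw [Filter.eventually_all]
    intro k
    exact ((continuous_fh k).mul continuous_const).continuousAt.eventually_lt
      continuousAt_const (lt_of_le_of_lt (h2 k) (by norm_num))
  have e3 : ∀ᶠ r in nhds s, (d : ℝ) * WW d L r < K :=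
    (show Continuous fun r : ℝ => (d : ℝ) * WW d L r from
      continuous_const.mul (continuous_WW d L)).continuousAt.eventually_lt
      continuousAt_const (by linarith)
  filter_upwards [e1, e2, e3] with r r1 r2 r3
  exact ⟨r1.le, fun k => (r2 k).le, r3.le⟩

/-- the bootstrap conclusion, together with the improved bounds -/
theorem BM_all : ∃ K : ℝ, 0 < K ∧ ∃ d₀ : ℕ, 72 ≤ d₀ ∧ ∀ d ≥ d₀, ∀ X : ℝ, ∃ L₀ : ℕ, 3 ≤ L₀ ∧
    ∀ L ≥ L₀, ∀ [NeZero L], ∀ q : ℝ, 0 ≤ q → q ≤ 1 → chi d L q ≤ X →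
    Good d L q K ∧
    (2 * d * q ≤ 2 ∧ (∀ k : Tor d L, fh (tt d L q) k * (1 - Dh k) ≤ 5) ∧
      d * WW d L q ≤ K / 2) ∧
    (∀ x, (CM (tt d L q) ^ 3 * CM (qJ d L q)) 0 x ≤ 1 / 100) ∧
    ∀ k : Tor d L, chi d L q - fh (tt d L q) k ≤ 2 * chi d L q ^ 2 * (1 - Dh k) := by
  obtain ⟨K, hK, d₀, hd₀, him⟩ := improve
  refine ⟨K, hK, d₀, hd₀, ?_⟩
  intro d hd X
  obtain ⟨L₀, hL₀, him⟩ := him d hd X
  refine ⟨L₀, hL₀, ?_⟩
  intro L hL _ q h0 h1 hX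
  have himp := him L hL
  have key : Set.Icc (0 : ℝ) q ⊆ {s : ℝ | Good d L s K} := by
    refine IsClosed.Icc_subset_of_forall_exists_gt ?_ ?_ ?_
    · exact (BM_closed d L K).inter isClosed_Icc
    · exact good_zero d L (by omega) K hK.le
    · rintro x ⟨hxG, hx0, hxq⟩ y hy
      have hc : chi d L x ≤ X := (BM_chi_mono d L hx0 hxq.le h1).trans hX
      obtain ⟨⟨i1, i2, i3⟩, -, -⟩ := himp x hx0 (hxq.le.trans h1) hc hxG
      have hev := BM_open d L K hK x i1 i2 i3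
      have hev2 : ∀ᶠ r in nhdsWithin x (Set.Ioi x), Good d L r K :=
        hev.filter_mono nhdsWithin_le_nhds
      have hev3 : ∀ᶠ r in nhdsWithin x (Set.Ioi x), r ∈ Set.Ioc x y :=
        Ioc_mem_nhdsGT hy
      obtain ⟨r, hr⟩ := (hev2.and hev3).exists
      exact ⟨r, hr.1, hr.2⟩
  have hG : Good d L q K := key ⟨h0, le_rfl⟩
  exact ⟨hG, himp q h0 h1 hX hG⟩

/-- BM (from BI, BC): the bootstrap -/
theorem good_all : ∃ K : ℝ, 0 < K ∧ ∃ d₀ : ℕ, 72 ≤ d₀ ∧ ∀ d ≥ d₀, ∀ X : ℝ, ∃ L₀ : ℕ, 3 ≤ L₀ ∧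
    ∀ L ≥ L₀, ∀ [NeZero L], ∀ q : ℝ, 0 ≤ q → q ≤ 1 → chi d L q ≤ X →
    2 * d * q ≤ 2 ∧ (∀ x, (CM (tt d L q) ^ 3 * CM (qJ d L q)) 0 x ≤ 1 / 100) ∧
    (∀ k : Tor d L, chi d L q - fh (tt d L q) k ≤ 2 * chi d L q ^ 2 * (1 - Dh k)) ∧
    ∀ k : Tor d L, fh (tt d L q) k * (1 - Dh k) ≤ 5 := by
  obtain ⟨K, hK, d₀, hd₀, h⟩ := BM_all
  refine ⟨K, hK, d₀, hd₀, fun d hd X => ?_⟩
  obtain ⟨L₀, hL₀, h⟩ := h d hd X
  refine ⟨L₀, hL₀, fun L hL _ q h0 h1 hX => ?_⟩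
  obtain ⟨-, ⟨i1, i2, -⟩, i4, i5⟩ := h L hL q h0 h1 hX
  exact ⟨i1, i4, i5, i2⟩

/-- the bootstrap conclusion -/
theorem BM_good : ∃ K : ℝ, 0 < K ∧ ∃ d₀ : ℕ, 72 ≤ d₀ ∧ ∀ d ≥ d₀, ∀ X : ℝ, ∃ L₀ : ℕ, 3 ≤ L₀ ∧
    ∀ L ≥ L₀, ∀ [NeZero L], ∀ q : ℝ, 0 ≤ q → q ≤ 1 → chi d L q ≤ X → Good d L q K := by
  obtain ⟨K, hK, d₀, hd₀, h⟩ := BM_all
  refine ⟨K, hK, d₀, hd₀, fun d hd X => ?_⟩
  obtain ⟨L₀, hL₀, h⟩ := h d hd X
  exact ⟨L₀, hL₀, fun L hL _ q h0 h1 hX => (h L hL q h0 h1 hX).1⟩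

end Pool.Agent.helper66.LE
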