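import Pool.Agent.helper64.LE.BM

/-!
# Output of the lace expansion
-/

set_option autoImplicit false

open Finset Classical

namespace Pool.Agent.helper66.LE

theorem BO_conv_comm {G : Type} [AddCommGroup G] [Fintype G] (f g : G → ℝ) (x : G) :
    conv f g x = conv g f x := by
  unfold conv
  refine Fintype.sum_equiv (Equiv.subLeft x) _ _ fun y => ?_
  simp only [Equiv.subLeft_apply, sub_sub_cancel]
  ring

theorem BO_CM_mul {G : Type} [AddCommGroup G] [Fintype G] (f g : G → ℝ) :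
    CM f * CM g = CM (conv f g) := by
  ext x y
  rw [Matrix.mul_apply]
  simp only [CM, Matrix.of_apply, conv]
  refine Fintype.sum_equiv (Equiv.subRight x) _ _ fun z => ?_
  simp only [Equiv.subRight_apply]
  congr 2
  abel

theorem BO_cs_single {d L : ℕ} [NeZero L] (i : Fin d) (x : Tor d L) :
    cs (Pi.single i 1) x = Real.cos (2 * Real.pi * ((x i).valMinAbs : ℝ) / L) := by
  unfold cs ee
  have h1 : ∑ j, (Pi.single i (1 : ZMod L) : Tor d L) j * x j = x i := by
    rw [Finset.sum_eq_single i]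
    · simp
    · intro j _ hj
      simp [Pi.single_eq_of_ne hj]
    · intro h
      exact absurd (Finset.mem_univ i) h
  rw [h1]
  have h2 : x i = (((x i).valMinAbs : ℤ) : ZMod L) := by rw [ZMod.coe_valMinAbs]
  conv_lhs => rw [h2]
  rw [ZMod.stdAddChar_coe]
  have h3 : (2 * (Real.pi : ℂ) * Complex.I * (((x i).valMinAbs : ℤ) : ℂ) / (L : ℂ)) =
      ((2 * Real.pi * ((x i).valMinAbs : ℝ) / L : ℝ) : ℂ) * Complex.I := by
    push_cast
    ring
  rw [h3, Complex.exp_ofReal_mul_I_re]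

theorem BO_Dh_single {d L : ℕ} [NeZero L] (i : Fin d) :
    1 - Dh (Pi.single i 1 : Tor d L) = (1 - Real.cos (2 * Real.pi / L)) / d := by
  have hd : (0 : ℝ) < d := by
    have : 0 < d := Fin.pos i
    exact_mod_cast this
  unfold Dh
  have h1 : ∀ j : Fin d, (ZMod.stdAddChar ((Pi.single i (1 : ZMod L) : Tor d L) j) : ℂ).re =
      1 - (if j = i then (1 - Real.cos (2 * Real.pi / L)) else 0) := by
    intro j
    by_cases hj : j = i
    · subst hj
      rw [if_pos rfl, Pi.single_eq_same]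
      have h2 : (1 : ZMod L) = ((1 : ℤ) : ZMod L) := by push_cast; rfl
      rw [h2, ZMod.stdAddChar_coe]
      have h3 : (2 * (Real.pi : ℂ) * Complex.I * ((1 : ℤ) : ℂ) / (L : ℂ)) =
          ((2 * Real.pi / L : ℝ) : ℂ) * Complex.I := by
        push_cast
        ring
      rw [h3, Complex.exp_ofReal_mul_I_re]
      ring
    · rw [if_neg hj, Pi.single_eq_of_ne hj]
      simp
  simp only [h1]
  rw [Finset.sum_sub_distrib, Finset.sum_ite_eq']
  simp only [Finset.mem_univ, if_true, Finset.sum_const, Finset.card_univ, Fintype.card_fin,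
    nsmul_eq_mul, mul_one]
  field_simp
  ring

/-- BO (from BM): output -/
theorem lace_main : ∃ d₀ : ℕ, ∀ d ≥ d₀, ∃ C : ℝ, 0 < C ∧ ∀ X : ℝ, ∃ L₀ : ℕ, ∀ L ≥ L₀,
    ∀ [NeZero L], ∀ q : ℝ, 0 ≤ q → q ≤ 1 → chi d L q ≤ X →
    2 * d * q ≤ 2 ∧
    (∀ a, q * conv (J (uv d (ZMod L))) (conv (tt d L q) (conv (tt d L q) (tt d L q))) a ≤
      1 / 100) ∧
    ∀ i, ∑ x, (ab i x) ^ 2 * tt d L q x ≤ C * (chi d L q) ^ 2 := by
  obtain ⟨K, hK, d₀, hd₀, him⟩ := good_all
  refine ⟨d₀, ?_⟩
  intro d hd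
  refine ⟨5, by norm_num, ?_⟩
  intro X
  obtain ⟨L₀, hL₀, him⟩ := him d hd X
  refine ⟨L₀, ?_⟩
  intro L hL _ q h0 h1 hX
  obtain ⟨i1, i2, i3, -⟩ := him L hL q h0 h1 hX
  refine ⟨i1, ?_, ?_⟩
  · intro a
    have e1 : (CM (tt d L q) ^ 3 * CM (qJ d L q)) 0 a =
        q * conv (J (uv d (ZMod L))) (conv (tt d L q) (conv (tt d L q) (tt d L q))) a := by
      have e2 : CM (tt d L q) ^ 3 * CM (qJ d L q) =
          CM (conv (conv (conv (tt d L q) (tt d L q)) (tt d L q)) (qJ d L q)) := by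
        rw [pow_succ, pow_two, BO_CM_mul, BO_CM_mul, BO_CM_mul]
      rw [e2]
      simp only [CM, Matrix.of_apply, sub_zero]
      rw [BO_conv_comm]
      have e3 : conv (conv (tt d L q) (tt d L q)) (tt d L q) =
          conv (tt d L q) (conv (tt d L q) (tt d L q)) := funext fun x => BO_conv_comm _ _ x
      rw [e3]
      simp only [conv, qJ]
      rw [Finset.mul_sum]
      refine Finset.sum_congr rfl fun y _ => by ring
    rw [← e1]
    exact i2 a
  · intro i
    have hd0 : (1 : ℝ) ≤ d := by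
      have : 1 ≤ d := Fin.pos i
      exact_mod_cast this
    have hLpos : (0 : ℝ) < L := by
      have : 3 ≤ L := hL₀.trans hL
      have h3 : (3 : ℝ) ≤ L := by exact_mod_cast this
      linarith
    have hpi := Real.pi_pos
    -- pointwise bound for the square of the torus distance
    have hpt : ∀ x : Tor d L, (ab i x) ^ 2 ≤ (L : ℝ) ^ 2 / 8 * (1 - cs (Pi.single i 1) x) := by
      intro x
      rw [BO_cs_single]
      set v : ℝ := ((x i).valMinAbs : ℝ) with hv
      have hab : (ab i x) ^ 2 = v ^ 2 := by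
        unfold ab
        rw [sq_abs]
      rw [hab]
      have hvL : |v| ≤ L / 2 := by
        have h5 := ZMod.natAbs_valMinAbs_le (x i)
        have h6 : (((x i).valMinAbs.natAbs : ℕ) : ℝ) ≤ ((L / 2 : ℕ) : ℝ) := by exact_mod_cast h5
        have h7 : (((x i).valMinAbs.natAbs : ℕ) : ℝ) = |v| := by
          rw [hv, Nat.cast_natAbs]
          push_cast
          rfl
        have h8 : ((L / 2 : ℕ) : ℝ) ≤ L / 2 := Nat.cast_div_le
        linarith
      -- 1 - cos y = 2 sin^2 (y/2) and |sin t| ≥ 2/π |t|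
      set y : ℝ := 2 * Real.pi * v / L with hy
      have h9 : 1 - Real.cos y = 2 * Real.sin (y / 2) ^ 2 := by
        have h10 := Real.cos_two_mul' (y / 2)
        rw [show 2 * (y / 2) = y by ring] at h10
        have h10' := Real.sin_sq_add_cos_sq (y / 2)
        linarith
      have h11 : |y / 2| ≤ Real.pi / 2 := by
        have : y / 2 = Real.pi * (v / L) := by rw [hy]; ring
        rw [this, abs_mul, abs_of_pos hpi, abs_div, abs_of_pos hLpos]
        have : |v| / L ≤ 1 / 2 := by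
          rw [div_le_div_iff₀ hLpos (by norm_num)]
          linarith
        nlinarith
      have h12 : 2 / Real.pi * |y / 2| ≤ |Real.sin (y / 2)| := Real.mul_abs_le_abs_sin h11
      have h13 : (2 / Real.pi * |y / 2|) ^ 2 ≤ Real.sin (y / 2) ^ 2 := by
        rw [← sq_abs (Real.sin (y / 2))]
        exact pow_le_pow_left₀ (by positivity) h12 2
      have h14 : (2 / Real.pi * |y / 2|) ^ 2 = 4 * v ^ 2 / L ^ 2 := by
        rw [mul_pow, sq_abs, hy]
        field_simp
        ring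
      rw [h9]
      rw [h14] at h13
      have h15 : v ^ 2 = (L : ℝ) ^ 2 / 8 * (2 * (4 * v ^ 2 / L ^ 2)) := by
        field_simp
        ring
      calc v ^ 2 = (L : ℝ) ^ 2 / 8 * (2 * (4 * v ^ 2 / L ^ 2)) := h15
        _ ≤ (L : ℝ) ^ 2 / 8 * (2 * Real.sin (y / 2) ^ 2) := by gcongr
    have htt : ∀ x, 0 ≤ tt d L q x := fun x => Pr_nonneg h0 h1 _ _
    have hsum : ∑ x, (ab i x) ^ 2 * tt d L q x ≤
        (L : ℝ) ^ 2 / 8 * (chi d L q - fh (tt d L q) (Pi.single i 1)) := by
      have e4 : (L : ℝ) ^ 2 / 8 * (chi d L q - fh (tt d L q) (Pi.single i 1)) =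
          ∑ x, (L : ℝ) ^ 2 / 8 * (1 - cs (Pi.single i 1) x) * tt d L q x := by
        unfold chi fh
        rw [← Finset.sum_sub_distrib, Finset.mul_sum]
        refine Finset.sum_congr rfl fun x _ => by ring
      rw [e4]
      exact Finset.sum_le_sum fun x _ => mul_le_mul_of_nonneg_right (hpt x) (htt x)
    refine hsum.trans ?_
    have h16 := i3 (Pi.single i 1)
    rw [BO_Dh_single] at h16
    have h17 : 1 - Real.cos (2 * Real.pi / L) ≤ (2 * Real.pi / L) ^ 2 / 2 := by
      have := Real.one_sub_sq_div_two_le_cos (x := 2 * Real.pi / L)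
      linarith
    have h18 : (1 - Real.cos (2 * Real.pi / L)) / d ≤ (2 * Real.pi / L) ^ 2 / 2 := by
      rw [div_le_iff₀ (by linarith)]
      have : 0 ≤ (2 * Real.pi / L) ^ 2 / 2 := by positivity
      nlinarith
    have h19 : Real.pi ^ 2 ≤ 10 := by
      have := Real.pi_lt_d2
      nlinarith
    calc (L : ℝ) ^ 2 / 8 * (chi d L q - fh (tt d L q) (Pi.single i 1))
        ≤ (L : ℝ) ^ 2 / 8 * (2 * chi d L q ^ 2 * ((2 * Real.pi / L) ^ 2 / 2)) := by
          gcongr
          refine h16.trans ?_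
          gcongr
      _ = Real.pi ^ 2 / 2 * chi d L q ^ 2 := by
          field_simp
          ring
      _ ≤ 5 * chi d L q ^ 2 := by
          have : 0 ≤ chi d L q ^ 2 := by positivity
          nlinarith

/-- the infrared bound -/
theorem infrared : ∃ d₀ : ℕ, ∀ d ≥ d₀, ∀ X : ℝ, ∃ L₀ : ℕ, ∀ L ≥ L₀, ∀ [NeZero L], ∀ q : ℝ,
    0 ≤ q → q ≤ 1 → chi d L q ≤ X → ∀ k : Tor d L, fh (tt d L q) k * (1 - Dh k) ≤ 6 := by
  obtain ⟨K, hK, d₀, hd₀, him⟩ := good_all
  refine ⟨d₀, fun d hd X => ?_⟩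
  obtain ⟨L₀, hL₀, him⟩ := him d hd X
  refine ⟨L₀, fun L hL _ q h0 h1 hX k => ?_⟩
  have h := (him L hL q h0 h1 hX).2.2.2 k
  linarith

end Pool.Agent.helper66.LE
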