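import Pool.Agent.helper64.LE.Defs
import Pool.Agent.helper66.LE.GB

/-!
# Basic facts on connections in a finite set of edges
-/

set_option autoImplicit false

open Finset Classical

namespace Pool.Agent.helper66.LE


section Conn

variable {V : Type} {F F' : Finset (Sym2 V)} {A A' : Set V} {x y z u v w : V}

theorem Conn.rfl' : Conn F x x := SimpleGraph.Reachable.refl x

theorem Conn.symm' (h : Conn F x y) : Conn F y x := SimpleGraph.Reachable.symm h

theorem Conn.trans' (h : Conn F x y) (h' : Conn F y z) : Conn F x z :=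
  SimpleGraph.Reachable.trans h h'

/-- induction along a connection -/
theorem Conn.induct {P : V → Prop} (h : Conn F x y) (h0 : P x)
    (hs : ∀ a b, Conn F x a → P a → s(a, b) ∈ F → P b) : P y := by
  obtain ⟨p⟩ := h
  have key : ∀ {a b : V} (p : (SimpleGraph.fromEdgeSet (F : Set (Sym2 V))).Walk a b),
      Conn F x a → P a → P b := by
    intro a b p
    induction p with
    | nil => exact fun _ h => h
    | cons hadj p ih =>
      intro hc ha
      rw [SimpleGraph.fromEdgeSet_adj] at hadj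
      have hm := Finset.mem_coe.1 hadj.1
      exact ih (hc.trans' (conn_of_mem hm)) (hs _ _ hc ha hm)
  exact key p Conn.rfl' h0

theorem mem_clus : x ∈ clus F v ↔ Conn F v x := Iff.rfl

theorem self_mem_clus : v ∈ clus F v := Conn.rfl'

theorem clus_closed (h : x ∈ clus F v) (hm : s(x, y) ∈ F) : y ∈ clus F v :=
  Conn.trans' h (conn_of_mem hm)

theorem mem_off : s(x, y) ∈ off F A ↔ s(x, y) ∈ F ∧ x ∉ A ∧ y ∉ A := by
  unfold off
  simp

theorem off_subset : off F A ⊆ F := Finset.filter_subset _ _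

theorem off_mono (h : F ⊆ F') : off F A ⊆ off F' A := Finset.filter_subset_filter _ h

theorem ConnOff.conn (h : ConnOff F A x y) : Conn F x y := h.2.2.mono off_subset

theorem ConnOff.symm' (h : ConnOff F A x y) : ConnOff F A y x := ⟨h.2.1, h.1, h.2.2.symm'⟩

theorem ConnOff.trans' (h : ConnOff F A x y) (h' : ConnOff F A y z) : ConnOff F A x z :=
  ⟨h.1, h'.2.1, h.2.2.trans' h'.2.2⟩

theorem ConnOff.mono (h : F ⊆ F') (hc : ConnOff F A x y) : ConnOff F' A x y :=
  ⟨hc.1, hc.2.1, hc.2.2.mono (off_mono h)⟩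

/-- a vertex reached by edges off `A` from a vertex off `A` is off `A` -/
theorem notMem_of_conn_off (h : Conn (off F A) x y) (hx : x ∉ A) : y ∉ A :=
  h.induct (P := fun a => a ∉ A) hx (fun _ _ _ _ hm => (mem_off.1 hm).2.2)

theorem Thr.conn (h : Thr F A x y) : Conn F x y := h.1

theorem Epr.thr (h : Epr F A v x) : Thr F A v x := h.1

theorem Epr.conn (h : Epr F A v x) : Conn F v x := h.1.1

theorem thr_self_iff : Thr F {v} v x ↔ Conn F v x := by
  constructor
  · exact fun h => h.1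
  · exact fun h => ⟨h, fun h' => h'.1 rfl⟩

theorem erase_sub (e : Sym2 V) : F.erase e ⊆ F := Finset.erase_subset _ _

/-- removing an edge: bridges -/
theorem conn_erase (h : Conn F x y) (h' : ¬ Conn (F.erase s(u, w)) x y) :
    s(u, w) ∈ F ∧ ((Conn (F.erase s(u, w)) x u ∧ Conn (F.erase s(u, w)) w y) ∨
      (Conn (F.erase s(u, w)) x w ∧ Conn (F.erase s(u, w)) u y)) := by
  have hmem : s(u, w) ∈ F := by
    by_contra hn
    rw [Finset.erase_eq_of_notMem hn] at h'
    exact h' h
  refine ⟨hmem, ?_⟩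
  set F₀ := F.erase s(u, w) with hF₀
  have key : Conn F₀ x y ∨ (Conn F₀ x u ∧ Conn F₀ w y) ∨ (Conn F₀ x w ∧ Conn F₀ u y) := by
    refine h.induct (P := fun a => Conn F₀ x a ∨ (Conn F₀ x u ∧ Conn F₀ w a) ∨
      (Conn F₀ x w ∧ Conn F₀ u a)) (Or.inl Conn.rfl') ?_
    intro a b _ ih hm
    by_cases he : s(a, b) = s(u, w)
    · rw [Sym2.eq_iff] at he
      rcases he with ⟨rfl, rfl⟩ | ⟨rfl, rfl⟩
      · rcases ih with ih | ih | ih
        · exact Or.inr (Or.inl ⟨ih, Conn.rfl'⟩)
        · exact Or.inr (Or.inl ⟨ih.1, Conn.rfl'⟩)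
        · exact Or.inl ih.1
      · rcases ih with ih | ih | ih
        · exact Or.inr (Or.inr ⟨ih, Conn.rfl'⟩)
        · exact Or.inl ih.1
        · exact Or.inr (Or.inr ⟨ih.1, Conn.rfl'⟩)
    · have hab : Conn F₀ a b := conn_of_mem (Finset.mem_erase.2 ⟨he, hm⟩)
      rcases ih with ih | ih | ih
      · exact Or.inl (ih.trans' hab)
      · exact Or.inr (Or.inl ⟨ih.1, ih.2.trans' hab⟩)
      · exact Or.inr (Or.inr ⟨ih.1, ih.2.trans' hab⟩)
  rcases key with h1 | h1
  · exact absurd h1 h'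
  · exact h1

theorem Piv.conn (h : Piv F v x u w) : Conn F v x :=
  ((h.2.1.mono (erase_sub _)).trans' (conn_of_mem h.1)).trans' (h.2.2.1.mono (erase_sub _))

/-- pivotal bonds stay pivotal in smaller configurations -/
theorem Piv.sub (hp : Piv F v x u w) (hF : F' ⊆ F) (hc : Conn F' v x) : Piv F' v x u w := by
  have hs : F'.erase s(u, w) ⊆ F.erase s(u, w) := Finset.erase_subset_erase _ hF
  have hn : ¬ Conn (F'.erase s(u, w)) v x := fun h => hp.2.2.2 (h.mono hs)
  obtain ⟨h1, h2 | h2⟩ := conn_erase hc hn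
  · exact ⟨h1, h2.1, h2.2, hn⟩
  · exact absurd ((h2.1.mono hs).trans' hp.2.2.1) hp.2.2.2

theorem Piv.symm' (hp : Piv F v x u w) : Piv F x v w u := by
  have e : s(w, u) = s(u, w) := Sym2.eq_swap
  refine ⟨?_, ?_, ?_, ?_⟩
  · rw [e]; exact hp.1
  · rw [e]; exact hp.2.2.1.symm'
  · rw [e]; exact hp.2.1.symm'
  · rw [e]; exact fun h => hp.2.2.2 h.symm'

end Conn

section t2

variable {V : Type} {q : ℝ} {E : Finset (Sym2 V)}

theorem t2_nonneg (h0 : 0 ≤ q) (h1 : q ≤ 1) (x y : V) : 0 ≤ t2 q E x y := Pr_nonneg h0 h1 _ _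

theorem t2_le_one (h0 : 0 ≤ q) (h1 : q ≤ 1) (x y : V) : t2 q E x y ≤ 1 := Pr_le_one h0 h1 _ _

theorem t2_comm (x y : V) : t2 q E x y = t2 q E y x := Pr_congr fun _ _ => conn_comm

theorem t2_self (x : V) : t2 q E x x = 1 := Pr_true _ _ fun _ _ => Conn.rfl'

theorem inc_DC (l : List (V × V)) : Inc (DC l) := by
  cases l with
  | nil => exact fun _ _ _ _ => trivial
  | cons p l => exact inc_dis

/-- BK for disjoint connections -/
theorem Pr_DC_le (h0 : 0 ≤ q) (h1 : q ≤ 1) (l : List (V × V)) :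
    Pr q E (DC l) ≤ (l.map (fun p => t2 q E p.1 p.2)).prod := by
  induction l with
  | nil => simpa using Pr_le_one h0 h1 E (DC ([] : List (V × V)))
  | cons p l ih =>
    rw [List.map_cons, List.prod_cons]
    refine (bk h0 h1 E (inc_conn p.1 p.2) (inc_DC l)).trans ?_
    exact mul_le_mul_of_nonneg_left ih (t2_nonneg h0 h1 _ _)

end t2

end Pool.Agent.helper66.LE
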