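import Pool.Agent.helper64.LE.Base
import Pool.Agent.helper66.LE.FA

/-!
# The factorization of the pivotal event
-/

set_option autoImplicit false

open Finset Classical

namespace Pool.Agent.helper66.LE

section FZ

variable {V : Type} {F G : Finset (Sym2 V)} {A : Set V} {v x u w y z u' w' : V}

/-- the edges touching the cluster of `v` -/
noncomputable def FZ_tch (G F : Finset (Sym2 V)) (v : V) : Finset (Sym2 V) :=
  G.filter fun e => ∃ a ∈ e, a ∈ clus F v

theorem FZ_conn_tch (hG : G ⊆ F) (hy : y ∈ clus F v) (h : Conn G y z) :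
    Conn (FZ_tch G F v) y z := by
  refine h.induct (P := fun a => Conn (FZ_tch G F v) y a) Conn.rfl' ?_
  intro a b hya ih hm
  refine ih.trans' (conn_of_mem ?_)
  refine Finset.mem_filter.2 ⟨hm, a, by simp, ?_⟩
  exact Conn.trans' hy (hya.mono hG)

theorem FZ_conn_iff (hG : G ⊆ F) (hy : y ∈ clus F v) :
    Conn (FZ_tch G F v) y z ↔ Conn G y z :=
  ⟨fun h => h.mono (Finset.filter_subset _ _), FZ_conn_tch hG hy⟩

theorem FZ_off : off (FZ_tch F F v) A = FZ_tch (off F A) F v := by
  unfold off FZ_tch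
  rw [Finset.filter_comm]

theorem FZ_erase (e : Sym2 V) : (FZ_tch F F v).erase e = FZ_tch (F.erase e) F v := by
  unfold FZ_tch
  rw [Finset.filter_erase]

theorem FZ_thr : Thr (FZ_tch F F v) A v y ↔ Thr F A v y := by
  unfold Thr ConnOff
  rw [FZ_off, FZ_conn_iff (Finset.Subset.refl F) self_mem_clus,
    FZ_conn_iff off_subset self_mem_clus]

theorem FZ_piv : Piv (FZ_tch F F v) v x u' w' ↔ Piv F v x u' w' := by
  unfold Piv
  rw [FZ_erase, FZ_conn_iff (erase_sub _) self_mem_clus, FZ_conn_iff (erase_sub _) self_mem_clus]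
  constructor
  · rintro ⟨h1, h2, h3, h4⟩
    exact ⟨(Finset.filter_subset _ _) h1, h2, h3.mono (Finset.filter_subset _ _), h4⟩
  · rintro ⟨h1, h2, h3, h4⟩
    have hu' : u' ∈ clus F v := h2.mono (erase_sub _)
    refine ⟨Finset.mem_filter.2 ⟨h1, u', by simp, hu'⟩, h2, ?_, h4⟩
    exact FZ_conn_tch (erase_sub _) (clus_closed hu' h1) h3

theorem FZ_epr : Epr (FZ_tch F F v) A v x ↔ Epr F A v x := by
  unfold Epr
  simp only [FZ_thr, FZ_piv]

/-- removing a bond which leaves the cluster -/
theorem FZ_bridge {F' : Finset (Sym2 V)} (hG : G.erase s(u, w) ⊆ F') (hw : w ∉ clus F' v)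
    (hy : y ∈ clus F' v) (hz : z ∈ clus F' v) (h : Conn G y z) : Conn (G.erase s(u, w)) y z := by
  by_contra hn
  obtain ⟨-, ⟨h1, h2⟩ | ⟨h1, h2⟩⟩ := conn_erase h hn
  · exact hw (Conn.trans' hz (h2.mono hG).symm')
  · exact hw (Conn.trans' hy (h1.mono hG))

theorem FZ_off_erase (e : Sym2 V) : (off F A).erase e = off (F.erase e) A := by
  unfold off
  rw [Finset.filter_erase]

theorem FZ_thr_erase (hw : w ∉ clus (F.erase s(u, w)) v) (hy : y ∈ clus (F.erase s(u, w)) v) :
    Thr F A v y ↔ Thr (F.erase s(u, w)) A v y := by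
  have h1 : Conn F v y ↔ Conn (F.erase s(u, w)) v y :=
    ⟨fun _ => hy, fun h => h.mono (erase_sub _)⟩
  have h2 : Conn (off F A) v y ↔ Conn (off (F.erase s(u, w)) A) v y := by
    constructor
    · intro h
      rw [← FZ_off_erase]
      refine FZ_bridge ?_ hw self_mem_clus hy h
      exact Finset.erase_subset_erase _ off_subset
    · exact fun h => h.mono (off_mono (erase_sub _))
  unfold Thr ConnOff
  rw [h1, h2]

theorem FZ_piv_erase (hw : w ∉ clus (F.erase s(u, w)) v) (hu : u ∈ clus (F.erase s(u, w)) v) :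
    Piv F v u u' w' ↔ Piv (F.erase s(u, w)) v u u' w' := by
  have hcomm : (F.erase s(u', w')).erase s(u, w) = (F.erase s(u, w)).erase s(u', w') :=
    Finset.erase_right_comm
  have hsub : (F.erase s(u', w')).erase s(u, w) ⊆ F.erase s(u, w) := by
    rw [hcomm]; exact erase_sub _
  constructor
  · rintro ⟨h1, h2, h3, h4⟩
    have hne : s(u', w') ≠ s(u, w) := by
      intro he
      rw [he] at h4
      exact h4 hu
    have h1' : s(u', w') ∈ F.erase s(u, w) := Finset.mem_erase.2 ⟨hne, h1⟩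
    have h2' : Conn ((F.erase s(u, w)).erase s(u', w')) v u' := by
      rw [← hcomm]
      by_contra hn
      obtain ⟨-, ⟨a1, a2⟩ | ⟨a1, a2⟩⟩ := conn_erase h2 hn
      · exact h4 (a1.mono (erase_sub _))
      · exact hw (a1.mono hsub)
    have hu' : u' ∈ clus (F.erase s(u, w)) v := h2'.mono (erase_sub _)
    have hw' : w' ∈ clus (F.erase s(u, w)) v := clus_closed hu' h1'
    refine ⟨h1', h2', ?_, ?_⟩
    · rw [← hcomm]
      exact FZ_bridge hsub hw hw' hu h3
    · rw [← hcomm]
      exact fun h => h4 (h.mono (erase_sub _))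
  · rintro ⟨h1, h2, h3, h4⟩
    rw [← hcomm] at h2 h3 h4
    refine ⟨Finset.mem_of_mem_erase h1, h2.mono (erase_sub _), h3.mono (erase_sub _), ?_⟩
    intro h
    exact h4 (FZ_bridge hsub hw self_mem_clus hu h)

/-- the status of the bond `(u, w)` is irrelevant for `E'(v, u; A)` if `w` is off the cluster -/
theorem FZ_epr_erase (hw : w ∉ clus (F.erase s(u, w)) v) :
    Epr F A v u ↔ Epr (F.erase s(u, w)) A v u := by
  by_cases hu : u ∈ clus (F.erase s(u, w)) v
  · unfold Epr
    rw [FZ_thr_erase hw hu]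
    refine and_congr_right fun _ => ?_
    refine forall_congr' fun u' => forall_congr' fun w' => ?_
    rw [FZ_piv_erase hw hu]
    refine imp_congr_right fun hp => not_congr ?_
    exact FZ_thr_erase hw (hp.2.1.mono (erase_sub _))
  · constructor
    · intro h
      exfalso
      obtain ⟨-, ⟨a1, a2⟩ | ⟨a1, a2⟩⟩ := conn_erase h.conn hu
      · exact hu a1
      · exact hw a1
    · intro h
      exact absurd h.conn hu

theorem FZ_connOff_clus (hx : ¬ Conn F v x) (h : Conn F w x) : ConnOff F (clus F v) w x := by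
  have hw : w ∉ clus F v := fun h' => hx (Conn.trans' h' h)
  refine ⟨hw, hx, ?_⟩
  refine h.induct (P := fun a => Conn (off F (clus F v)) w a) Conn.rfl' ?_
  intro a b hwa ih hm
  have ha : a ∉ clus F v := fun h' => hw (Conn.trans' h' hwa.symm')
  have hb : b ∉ clus F v := fun h' =>
    ha (clus_closed h' (by rw [Sym2.eq_swap]; exact hm))
  exact ih.trans' (conn_of_mem (mem_off.2 ⟨hm, ha, hb⟩))

/-- the pivotal event -/
theorem FZ_event (hmem : s(u, w) ∈ F) : (Epr F A v u ∧ Piv F v x u w) ↔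
    (Epr (F.erase s(u, w)) A v u ∧
      ConnOff (F.erase s(u, w)) (clus (F.erase s(u, w)) v) w x) := by
  constructor
  · rintro ⟨h1, h2⟩
    have hw : w ∉ clus (F.erase s(u, w)) v := fun h => h2.2.2.2 (Conn.trans' h h2.2.2.1)
    exact ⟨(FZ_epr_erase hw).1 h1, FZ_connOff_clus h2.2.2.2 h2.2.2.1⟩
  · rintro ⟨h1, h2⟩
    have hw := h2.1
    exact ⟨(FZ_epr_erase hw).2 h1, hmem, h1.conn, h2.conn, h2.2.1⟩

theorem FZ_Pr_erase (q : ℝ) (E : Finset (Sym2 V)) {C : Set V} (hu : u ∈ C) :
    Pr q (E.erase s(u, w)) (fun F' => ConnOff F' C w x) =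
      Pr q E (fun F' => ConnOff F' C w x) := by
  unfold Pr
  rw [← Ex_erase]
  refine Ex_congr fun F _ => ?_
  refine ite_iff ?_
  have h : off (F.erase s(u, w)) C = off F C := by
    rw [← FZ_off_erase]
    refine Finset.erase_eq_of_notMem ?_
    rw [mem_off]
    exact fun h => h.2.1 hu
  show (w ∉ C ∧ x ∉ C ∧ Conn (off (F.erase s(u, w)) C) w x) ↔
    (w ∉ C ∧ x ∉ C ∧ Conn (off F C) w x)
  rw [h]

/-- FZ: factorization -/
theorem epr_factor [Fintype V] (q : ℝ) (E : Finset (Sym2 V)) (A : Set V) (v x u w : V)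
    (huw : u ≠ w) (he : s(u, w) ∈ E) :
    Pr q E (fun F => Epr F A v u ∧ Piv F v x u w) = q * Ex q E (fun F =>
      if Epr F A v u then
        Pr q E (fun F' => ConnOff F' (clus (F.erase s(u, w)) v) w x) else 0) := by
  set Ψ : Finset (Sym2 V) → ℝ := fun F => if Epr F A v u then 1 else 0 with hΨ
  -- left hand side
  have hL : Pr q E (fun F => Epr F A v u ∧ Piv F v x u w) =
      q * Ex q (E.erase s(u, w)) (fun F => Ψ F * if ConnOff F (clus F v) w x then 1 else 0) := by
    have h0 := Ex_open he q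
      (fun F => Ψ F * if ConnOff F (clus F v) w x then 1 else 0)
    rw [← Ex_erase, ← h0]
    unfold Pr
    refine Ex_congr fun F _ => ?_
    by_cases hmem : s(u, w) ∈ F
    · rw [if_pos hmem, hΨ]
      simp only
      by_cases h1 : Epr (F.erase s(u, w)) A v u ∧
          ConnOff (F.erase s(u, w)) (clus (F.erase s(u, w)) v) w x
      · rw [if_pos ((FZ_event hmem).2 h1), if_pos h1.1, if_pos h1.2, mul_one]
      · rw [if_neg (fun h => h1 ((FZ_event hmem).1 h))]
        by_cases h2 : Epr (F.erase s(u, w)) A v u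
        · rw [if_neg (fun h => h1 ⟨h2, h⟩), mul_zero]
        · rw [if_neg h2, zero_mul]
    · rw [if_neg hmem, if_neg]
      exact fun h => hmem h.2.1
  rw [hL, factor_clus]
  · congr 1
    rw [← Ex_erase]
    refine Ex_congr fun F _ => ?_
    simp only [hΨ]
    by_cases hw : w ∈ clus (F.erase s(u, w)) v
    · have h0 : ∀ E' : Finset (Sym2 V),
          Pr q E' (fun F' => ConnOff F' (clus (F.erase s(u, w)) v) w x) = 0 :=
        fun E' => Pr_false _ _ fun F' _ h => h.1 hw
      rw [h0, h0]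
      simp
    · have hiff : Epr (F.erase s(u, w)) A v u ↔ Epr F A v u := by
        exact (FZ_epr_erase hw).symm
      by_cases h1 : Epr F A v u
      · rw [if_pos (hiff.2 h1), if_pos h1, one_mul]
        exact FZ_Pr_erase q E ((hiff.2 h1).conn)
      · rw [if_neg (fun h => h1 (hiff.1 h)), if_neg h1, zero_mul]
  · intro F _
    simp only [hΨ]
    refine ite_iff ?_
    exact FZ_epr.symm

end FZ

end Pool.Agent.helper66.LE
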