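import Pool.Agent.helper64.LE.FZ
import Pool.Agent.helper49.LE.PT

/-!
# One step of the lace expansion
-/

set_option autoImplicit false

open Finset Classical

namespace Pool.Agent.helper66.LE


/-- the partition of the event `Thr` -/
theorem ID_indicator {V : Type} [Fintype V] (F : Finset (Sym2 V)) (A : Set V) (v x : V) :
    (if Thr F A v x then (1 : ℝ) else 0) = (if Epr F A v x then (1 : ℝ) else 0) +
      ∑ u, ∑ w, (if Epr F A v u ∧ Piv F v x u w then (1 : ℝ) else 0) := by
  by_cases h : Epr F A v x
  · rw [if_pos ((thr_iff F A v x).2 (Or.inl h)), if_pos h]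
    rw [Finset.sum_eq_zero, add_zero]
    intro u _
    refine Finset.sum_eq_zero fun w _ => if_neg ?_
    exact fun h' => epr_not_piv h h'.1 h'.2
  · rw [if_neg h, zero_add]
    by_cases h' : ∃ u w, Epr F A v u ∧ Piv F v x u w
    · rw [if_pos ((thr_iff F A v x).2 (Or.inr h'))]
      obtain ⟨u, w, h1, h2⟩ := h'
      rw [Finset.sum_eq_single u, Finset.sum_eq_single w, if_pos ⟨h1, h2⟩]
      · intro w' _ hw'
        refine if_neg fun h3 => hw' ?_
        exact (piv_unique h3.1 h3.2 h1 h2).2
      · intro h3; exact absurd (Finset.mem_univ _) h3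
      · intro u' _ hu'
        refine Finset.sum_eq_zero fun w' _ => if_neg fun h3 => hu' ?_
        exact (piv_unique h3.1 h3.2 h1 h2).1
      · intro h3; exact absurd (Finset.mem_univ _) h3
    · rw [if_neg]
      · symm
        refine Finset.sum_eq_zero fun u _ => Finset.sum_eq_zero fun w _ => if_neg ?_
        exact fun h3 => h' ⟨u, w, h3⟩
      · intro h3
        rcases (thr_iff F A v x).1 h3 with h4 | h4
        · exact h h4
        · exact h' h4

/-- ID (from PT, FZ): one step of the expansion -/
theorem rem_zero_eq {V : Type} [Fintype V] (q : ℝ) (E : Finset (Sym2 V)) (hE : ∀ u : V, s(u, u) ∉ E)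
    (A : Set V) (v x : V) :
    Rem q E 0 A v x = Phi q E 0 A v x +
      ∑ u, ∑ w, (if s(u, w) ∈ E then q * Phi q E 0 A v u * t2 q E w x else 0) -
      Rem q E 1 A v x := by
  have h1 : Rem q E 0 A v x = Phi q E 0 A v x +
      ∑ u, ∑ w, Pr q E (fun F => Epr F A v u ∧ Piv F v x u w) := by
    simp only [Rem, Phi, Pr]
    rw [← Finset.sum_congr rfl fun u _ => Ex_sum q E Finset.univ _, ← Ex_sum, ← Ex_add]
    refine Ex_congr fun F _ => ?_
    convert ID_indicator F A v x
  have h2 : ∀ u w, Pr q E (fun F => Epr F A v u ∧ Piv F v x u w) =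
      (if s(u, w) ∈ E then q * Phi q E 0 A v u * t2 q E w x else 0) -
      (if s(u, w) ∈ E then q * Ex q E (fun F =>
        if Epr F A v u then Rem q E 0 (clus (F.erase s(u, w)) v) w x else 0) else 0) := by
    intro u w
    by_cases he : s(u, w) ∈ E
    · rw [if_pos he, if_pos he]
      have huw : u ≠ w := fun h => hE u (by rw [← h] at he; exact he)
      rw [epr_factor q E A v x u w huw he]
      have h3 : ∀ C : Set V, Pr q E (fun F' => ConnOff F' C w x) =
          t2 q E w x - Rem q E 0 C w x := by
        intro C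
        simp only [Rem, t2, Pr]
        rw [← Ex_sub]
        refine Ex_congr fun F _ => ?_
        by_cases h4 : ConnOff F C w x
        · rw [if_pos h4, if_pos h4.conn, if_neg (fun h5 => h5.2 h4), sub_zero]
        · rw [if_neg h4]
          by_cases h5 : Conn F w x
          · rw [if_pos h5, if_pos (show Thr F C w x from ⟨h5, h4⟩), sub_self]
          · rw [if_neg h5, if_neg (fun h6 => h5 h6.1), sub_self]
      have h6 : (fun F : Finset (Sym2 V) => if Epr F A v u then
          Pr q E (fun F' => ConnOff F' (clus (F.erase s(u, w)) v) w x) else 0) =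
          fun F => (if Epr F A v u then (1 : ℝ) else 0) * t2 q E w x -
            (if Epr F A v u then Rem q E 0 (clus (F.erase s(u, w)) v) w x else 0) := by
        funext F
        by_cases h7 : Epr F A v u
        · rw [if_pos h7, if_pos h7, if_pos h7, h3, one_mul]
        · rw [if_neg h7, if_neg h7, if_neg h7, zero_mul, sub_zero]
      rw [h6, Ex_sub, Ex_mul_const]
      simp only [Phi, Pr]
      ring
    · rw [if_neg he, if_neg he, sub_zero]
      refine Pr_false _ _ fun F hF h3 => he (hF h3.2.1)
  rw [h1]
  simp only [h2, Finset.sum_sub_distrib]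
  have h8 : Rem q E 1 A v x = ∑ u, ∑ w, (if s(u, w) ∈ E then q * Ex q E (fun F =>
        if Epr F A v u then Rem q E 0 (clus (F.erase s(u, w)) v) w x else 0) else 0) := rfl
  rw [h8]
  ring

end Pool.Agent.helper66.LE
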